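import Mathlib

namespace Pool.Agent.Results.MP_d66889_lc.ConvexSFT

open Set

/-- A pattern over `ℤ^d`: a finite support together with a map from the support to the alphabet. -/
structure Pattern (d : ℕ) (A : Type) where
  dom : Finset (Fin d → ℤ)
  val : dom → A

/-- The translate of `q` by `u` occurs in the configuration `x`. -/
def Occurs {d : ℕ} {A : Type} (q : Pattern d A) (u : Fin d → ℤ) (x : (Fin d → ℤ) → A) : Prop :=
  ∀ v : q.dom, x (v.1 + u) = q.val v

/-- `X_F`: the configurations in which no translate of a pattern of `F` occurs. -/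
def Avoids {d : ℕ} {A : Type} (F : Set (Pattern d A)) : Set ((Fin d → ℤ) → A) :=
  {x | ∀ q ∈ F, ∀ u, ¬ Occurs q u x}

/-- `X` is a subshift of finite type: `X = X_F` for a finite set `F` of patterns. -/
def IsSFT {d : ℕ} {A : Type} (X : Set ((Fin d → ℤ) → A)) : Prop :=
  ∃ F : Set (Pattern d A), F.Finite ∧ X = Avoids F

/-- The pattern `p : D → A` is globally valid in `X`: it is the restriction of a point of `X`. -/
def GloballyValid {d : ℕ} {A : Type} (X : Set ((Fin d → ℤ) → A)) (p : Pattern d A) : Prop :=
  ∃ x ∈ X, ∀ v : p.dom, x v.1 = p.val v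

/-- The pattern `p` is locally valid for `F`: no translate of a pattern of `F` whose support lies
inside the support of `p` occurs in `p`. -/
def LocallyValid {d : ℕ} {A : Type} (F : Set (Pattern d A)) (p : Pattern d A) : Prop :=
  ∀ q ∈ F, ∀ u : Fin d → ℤ, ∀ h : ∀ v : q.dom, v.1 + u ∈ p.dom,
    ¬ ∀ v : q.dom, p.val ⟨v.1 + u, h v⟩ = q.val v

/-- The embedding of `ℤ^d` into `ℝ^d`. -/
def toReal {d : ℕ} (v : Fin d → ℤ) : Fin d → ℝ := fun i => (v i : ℝ)

/-- `C ⊆ ℤ^d` is convex: `C = conv_ℝ(C) ∩ ℤ^d`. -/
def IsConvex {d : ℕ} (C : Set (Fin d → ℤ)) : Prop :=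
  C = {v | toReal v ∈ convexHull ℝ (toReal '' C)}

/-- `E_X(x, D, v)`: the letters `a` such that `x|_D ∪ {v ↦ a}` is globally valid in `X`. -/
def Ext {d : ℕ} {A : Type} (X : Set ((Fin d → ℤ) → A)) (x : (Fin d → ℤ) → A)
    (D : Finset (Fin d → ℤ)) (v : Fin d → ℤ) : Set A :=
  {a | ∃ y ∈ X, (∀ w ∈ D, y w = x w) ∧ y v = a}

/-- `X` is avo for convex sets. -/
def AvoConvex {d : ℕ} {A : Type} (X : Set ((Fin d → ℤ) → A)) : Prop :=
  ∃ N : Finset (Fin d → ℤ), ∀ C : Finset (Fin d → ℤ), IsConvex (C : Set (Fin d → ℤ)) →
    ∀ v ∉ C, IsConvex ((insert v C : Finset (Fin d → ℤ)) : Set (Fin d → ℤ)) →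
      ∀ x ∈ X, Ext X x C v = Ext X x (C.filter (fun w => w - v ∈ N)) v

/-- `X` is SFT on convex sets. -/
def SFTOnConvex {d : ℕ} {A : Type} (X : Set ((Fin d → ℤ) → A)) : Prop :=
  ∃ F : Set (Pattern d A), F.Finite ∧ X = Avoids F ∧
    ∀ p : Pattern d A, IsConvex (p.dom : Set (Fin d → ℤ)) → LocallyValid F p →
      GloballyValid X p

theorem toReal_inj {d : ℕ} {v w : Fin d → ℤ} (h : toReal v = toReal w) : v = w := by
  funext i
  have := congrFun h i
  simpa [toReal] using this

/-- A nonempty finite convex set contains a point whose removal leaves a convex set. -/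
theorem exists_erase {d : ℕ} (D : Finset (Fin d → ℤ)) (hne : D.Nonempty)
    (hD : IsConvex (D : Set (Fin d → ℤ))) :
    ∃ v ∈ D, IsConvex ((D.erase v : Finset (Fin d → ℤ)) : Set (Fin d → ℤ)) := by
  classical
  have hfin : (toReal '' (D : Set (Fin d → ℤ))).Finite := (D.finite_toSet).image _
  have hcomp : IsCompact (convexHull ℝ (toReal '' (D : Set (Fin d → ℤ)))) :=
    hfin.isCompact_convexHull (𝕜 := ℝ)
  have hne' : (convexHull ℝ (toReal '' (D : Set (Fin d → ℤ)))).Nonempty := by
    obtain ⟨v, hv⟩ := hne
    exact ⟨toReal v, subset_convexHull ℝ _ ⟨v, hv, rfl⟩⟩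
  obtain ⟨e, he⟩ := hcomp.extremePoints_nonempty hne'
  have heD := extremePoints_convexHull_subset he
  obtain ⟨v, hv, rfl⟩ := heD
  refine ⟨v, hv, ?_⟩
  have hconv : Convex ℝ (convexHull ℝ (toReal '' (D : Set (Fin d → ℤ))) \ {toReal v}) :=
    ((convex_convexHull ℝ _).mem_extremePoints_iff_convex_sdiff.1 he).2
  have hsub : convexHull ℝ (toReal '' ((D.erase v : Finset (Fin d → ℤ)) : Set (Fin d → ℤ))) ⊆
      convexHull ℝ (toReal '' (D : Set (Fin d → ℤ))) \ {toReal v} := by
    apply convexHull_min _ hconv
    rintro _ ⟨w, hw, rfl⟩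
    have hw' : w ∈ D ∧ w ≠ v := by simpa using hw
    refine ⟨subset_convexHull ℝ _ ⟨w, hw'.1, rfl⟩, ?_⟩
    intro h
    exact hw'.2 (toReal_inj h)
  ext w
  constructor
  · intro hw
    exact subset_convexHull ℝ _ ⟨w, hw, rfl⟩
  · intro hw
    have h1 := hsub hw
    have h2 : w ∈ (D : Set (Fin d → ℤ)) := by
      rw [hD]
      exact h1.1
    have h3 : w ≠ v := by
      rintro rfl
      exact h1.2 rfl
    simp only [Finset.coe_erase, Set.mem_sdiff, Set.mem_singleton_iff]
    exact ⟨h2, h3⟩

theorem shift_mem {d : ℕ} {A : Type} {F : Set (Pattern d A)} {x : (Fin d → ℤ) → A}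
    (hx : x ∈ Avoids F) (u : Fin d → ℤ) : (fun w => x (w + u)) ∈ Avoids F := by
  intro q hq t ho
  apply hx q hq (t + u)
  intro v
  have := ho v
  simp only at this
  rw [← this, add_assoc]

theorem finite_patterns {d : ℕ} {A : Type} [Finite A] (N : Finset (Fin d → ℤ)) :
    {q : Pattern d A | q.dom ⊆ N}.Finite := by
  classical
  have : {q : Pattern d A | q.dom ⊆ N} ⊆
      ⋃ S ∈ (N.powerset : Set (Finset (Fin d → ℤ))),
        Set.range (fun f : S → A => (⟨S, f⟩ : Pattern d A)) := by
    intro q hq
    simp only [Set.mem_iUnion]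
    refine ⟨q.dom, ?_, q.val, rfl⟩
    simpa using hq
  refine Set.Finite.subset ?_ this
  apply Set.Finite.biUnion (Finset.finite_toSet _)
  intro S _
  exact Set.finite_range _

/-- **Main theorem.** For every `d` and every finite alphabet, every SFT on `ℤ^d` that is avo for
convex sets is SFT on convex sets. -/
theorem result : ∀ (d : ℕ) (A : Type) [Finite A] (X : Set ((Fin d → ℤ) → A)),
    IsSFT X → AvoConvex X → SFTOnConvex X := by
  classical
  intro d A _ X hX havo
  obtain ⟨F0, hF0, hXF⟩ := hX
  obtain ⟨N, hN⟩ := havo
  by_cases hXe : X.Nonempty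
  swap
  · -- the empty subshift
    rw [Set.not_nonempty_iff_eq_empty] at hXe
    refine ⟨{⟨∅, fun v => absurd v.2 (Finset.notMem_empty _)⟩}, Set.finite_singleton _, ?_, ?_⟩
    · rw [hXe]
      symm
      rw [Set.eq_empty_iff_forall_notMem]
      intro x hx
      apply hx _ rfl 0
      intro v
      exact absurd v.2 (Finset.notMem_empty _)
    · intro p _ hl
      exfalso
      apply hl _ rfl 0 (fun v => absurd v.2 (Finset.notMem_empty _))
      intro v
      exact absurd v.2 (Finset.notMem_empty _)
  · refine ⟨F0 ∪ {q | q.dom ⊆ insert 0 N ∧ ¬ GloballyValid X q}, ?_, ?_, ?_⟩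
    · exact hF0.union ((finite_patterns (insert 0 N)).subset (fun q hq => hq.1))
    · apply Set.Subset.antisymm
      · intro x hx q hq u ho
        rcases hq with hq | hq
        · rw [hXF] at hx
          exact hx q hq u ho
        · apply hq.2
          refine ⟨fun w => x (w + u), ?_, fun v => ho v⟩
          rw [hXF] at hx ⊢
          exact shift_mem hx u
      · intro x hx
        rw [hXF]
        intro q hq u ho
        exact hx q (Or.inl hq) u ho
    · -- main induction
      have key : ∀ (n : ℕ) (p : Pattern d A), p.dom.card = n →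
          IsConvex (p.dom : Set (Fin d → ℤ)) →
          LocallyValid (F0 ∪ {q | q.dom ⊆ insert 0 N ∧ ¬ GloballyValid X q}) p →
          GloballyValid X p := by
        intro n
        induction n with
        | zero =>
          intro p hp _ _
          obtain ⟨x, hx⟩ := hXe
          refine ⟨x, hx, fun v => ?_⟩
          have : p.dom = ∅ := Finset.card_eq_zero.1 hp
          have hv : v.1 ∈ (∅ : Finset (Fin d → ℤ)) := this ▸ v.2
          exact absurd hv (Finset.notMem_empty _)
        | succ n ih =>
          intro p hp hconv hl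
          have hne : p.dom.Nonempty := by
            rw [← Finset.card_pos]; omega
          obtain ⟨v, hv, hcv⟩ := exists_erase p.dom hne hconv
          have hCsub : ∀ w ∈ p.dom.erase v, w ∈ p.dom := fun w hw => Finset.mem_of_mem_erase hw
          -- the restriction
          obtain ⟨x, hx, hxp⟩ := ih ⟨p.dom.erase v, fun w => p.val ⟨w.1, hCsub _ w.2⟩⟩
            (by simp only [Finset.card_erase_of_mem hv]; omega) hcv
            (by
              intro q hq u h ho
              exact hl q hq u (fun t => hCsub _ (h t)) ho)
          -- the window pattern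
          let W : Finset (Fin d → ℤ) :=
            (insert v ((p.dom.erase v).filter (fun w => w - v ∈ N))).image (fun w => w - v)
          have hW : ∀ t ∈ W, t + v ∈ p.dom := by
            intro t ht
            simp only [W, Finset.mem_image, Finset.mem_insert, Finset.mem_filter] at ht
            obtain ⟨w, hw, rfl⟩ := ht
            rw [sub_add_cancel]
            rcases hw with hw | hw
            · rw [hw]; exact hv
            · exact hCsub _ hw.1
          let q : Pattern d A := ⟨W, fun t => p.val ⟨t.1 + v, hW _ t.2⟩⟩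
          have hqg : GloballyValid X q := by
            by_contra hng
            have hqF : q ∈ F0 ∪ {q | q.dom ⊆ insert 0 N ∧ ¬ GloballyValid X q} := by
              refine Or.inr ⟨?_, hng⟩
              intro t ht
              simp only [q, W, Finset.mem_image, Finset.mem_insert, Finset.mem_filter] at ht
              obtain ⟨w, hw, rfl⟩ := ht
              rcases hw with hw | hw
              · rw [hw, sub_self]; exact Finset.mem_insert_self _ _
              · exact Finset.mem_insert_of_mem hw.2
            exact hl q hqF v (fun t => hW _ t.2) (fun t => rfl)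
          obtain ⟨y, hy, hyq⟩ := hqg
          have hy' : (fun w => y (w - v)) ∈ X := by
            rw [hXF] at hy ⊢
            have := shift_mem hy (-v)
            simpa [sub_eq_add_neg] using this
          have hmem : p.val ⟨v, hv⟩ ∈
              Ext X x ((p.dom.erase v).filter (fun w => w - v ∈ N)) v := by
            refine ⟨fun w => y (w - v), hy', ?_, ?_⟩
            · intro w hw
              have hwW : w - v ∈ W := by
                simp only [W, Finset.mem_image, Finset.mem_insert]
                exact ⟨w, Or.inr hw, rfl⟩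
              have h1 := hyq ⟨w - v, hwW⟩
              have h2 := hxp ⟨w, (Finset.mem_filter.1 hw).1⟩
              simp only at h1 h2
              show y (w - v) = x w
              rw [h1, h2]
              simp only [q]
              congr 1
              apply Subtype.ext
              simp
            · have hwW : v - v ∈ W := by
                simp only [W, Finset.mem_image, Finset.mem_insert]
                exact ⟨v, Or.inl rfl, rfl⟩
              have h1 := hyq ⟨v - v, hwW⟩
              show y (v - v) = _
              rw [h1]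
              simp only [q]
              congr 1
              apply Subtype.ext
              simp
          have hins : insert v (p.dom.erase v) = p.dom := Finset.insert_erase hv
          have hE := hN (p.dom.erase v) hcv v (Finset.notMem_erase _ _) (by rw [hins]; exact hconv) x hx
          rw [← hE] at hmem
          obtain ⟨z, hz, hzx, hzv⟩ := hmem
          refine ⟨z, hz, fun w => ?_⟩
          by_cases hwv : w.1 = v
          · have : w = ⟨v, hv⟩ := Subtype.ext hwv
            rw [this]
            exact hzv
          · have hwe : w.1 ∈ p.dom.erase v := Finset.mem_erase.2 ⟨hwv, w.2⟩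
            rw [hzx _ hwe]
            exact hxp ⟨w.1, hwe⟩
      intro p hconv hl
      exact key _ p rfl hconv hl

end Pool.Agent.Results.MP_d66889_lc.ConvexSFT
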